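import Pool.Agent.Run7.h690.CL.Main
import Pool.Agent.Run7.h194.CL.EX

set_option autoImplicit false

/-!
# A stable continuous theory without enough d-definable sets (Q1)

Continuous first-order logic for metric structures (file `Pool/Agent/Run7/h690/CL/Iface.lean`): a
signature `Sig` has function symbols and `[0, 1]`-valued predicate symbols with moduli of uniform
continuity, a structure `Str` is a nonempty complete metric space of diameter at most one, formulas
`Fm L C n` (constants from `C`, free variables `0, …, n - 1`) are built from predicates and
distances of terms with all continuous connectives and with `sup` and `inf`.

There are a countable signature and a complete stable theory `T` (no formula has the order property)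
which does not have enough d-definable sets. In all models of `T` only the empty set and the whole
model are d-definable sets of elements over the empty set, while some complete type over the empty
set is realized, but not by all elements, in a model.

`T` is the theory of the set `[0, 1] × ℕ` with the discrete metric and with the predicate
`P (r, k) = r`: the space of 1-types over the empty set is the interval with the discrete metric.
-/

namespace Pool.Agent.Results.MP_cc3859_lc.StableCounterexample

open Pool.Agent.Run7.h690.CL

/-- **Not every stable continuous theory has enough d-definable sets.** -/
theorem result :
    ∃ (L : Sig) (_ : Countable (Σ n, L.Fn n)) (_ : Countable (Σ n, L.Rl n))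
      (T : Set (Fm L Empty 0)), Stable T ∧
      -- `T` has a model, and is complete
      (∃ (M : Type) (_ : MetricSpace M) (_ : Str L M), Model T M) ∧
      (∀ (M N : Type) [MetricSpace M] [Str L M] [MetricSpace N] [Str L N], Model T M →
        Model T N → ∀ σ : Fm L Empty 0, σ.val (M := M) Empty.elim Fin.elim0 =
          σ.val (M := N) Empty.elim Fin.elim0) ∧
      -- there are no nontrivial sets of elements that are d-definable over the empty set
      (∀ (M : Type) [MetricSpace M] [Str L M], Model T M → ∀ D : Set (Fin 1 → M),
        DDef L (∅ : Set M) D → D = ∅ ∨ D = Set.univ) ∧
      ¬ Enough T :=
  stable_not_enough Pool.Agent.Run7.h194.CL.t_EX

end Pool.Agent.Results.MP_cc3859_lc.StableCounterexample
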